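import Pool.Agent.Q94.IZWords

/-!
# The lattice of varieties of implication zroupoids satisfies no nontrivial identity

`LTerm` is the type of lattice terms (`sup`, `inf`, variables indexed by `ℕ`) and `LTerm.eval`
their value under an assignment. `SubVar` is the lattice `𝕀ℤ` of subvarieties of the variety of
implication zroupoids. If a lattice identity `p ≈ q` holds in `𝕀ℤ`, then it holds in every
lattice.
-/

namespace Pool.Agent.Results.MP_79490a_al.NoIdentity

open Pool.Agent.Q94.IZ Pool.Agent.Q94.PartLattice

/-- Every lattice identity which holds in the lattice `𝕀ℤ` of all varieties of implication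
zroupoids holds in all lattices. -/
theorem result (p q : LTerm) (h : ∀ v : ℕ → SubVar, p.eval v = q.eval v)
    (L : Type*) [Lattice L] (v : ℕ → L) : p.eval v = q.eval v :=
  no_identity p q h L v

end Pool.Agent.Results.MP_79490a_al.NoIdentity
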